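import Pool.Agent.WIR.StmtsA

/-!
WIR, row TNZ.
-/

set_option autoImplicit false

namespace Pool.Agent.WIR.H77

theorem two_unit (N : ℕ) : IsUnit (2 : ZMod (3 ^ N)) := by
  have h : IsUnit ((2 : ℕ) : ZMod (3 ^ N)) :=
    (ZMod.isUnit_iff_coprime 2 (3 ^ N)).2 (Nat.Coprime.pow_right N (by norm_num))
  exact_mod_cast h

theorem two_inv_unit (N : ℕ) : IsUnit ((2 : ZMod (3 ^ N))⁻¹) := by
  have h : (2 : ZMod (3 ^ N)) * (2 : ZMod (3 ^ N))⁻¹ = 1 := by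
    have h1 := ZMod.coe_mul_inv_eq_one (n := 3 ^ N) 2 (Nat.Coprime.pow_right N (by norm_num))
    exact_mod_cast h1
  exact IsUnit.of_mul_eq_one_right _ h

theorem three_pow_eq_zero (N e : ℕ) : (3 : ZMod (3 ^ N)) ^ e = 0 ↔ N ≤ e := by
  have h1 : (3 : ZMod (3 ^ N)) ^ e = ((3 ^ e : ℕ) : ZMod (3 ^ N)) := by push_cast; rfl
  rw [h1, ZMod.natCast_eq_zero_iff, Nat.pow_dvd_pow_iff_le_right (by norm_num)]

theorem tnz : TnzStmt := by
  intro N t ξ j l hξ hj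
  have hres : res N t ξ j l = 3 ^ (t + 2 * j - 2) * (2 * ξ * (2 : ZMod (3 ^ N))⁻¹ ^ l) := by
    unfold res
    ring
  have hu : IsUnit (2 * ξ * (2 : ZMod (3 ^ N))⁻¹ ^ l) :=
    ((two_unit N).mul hξ).mul ((two_inv_unit N).pow l)
  refine ⟨fun h => ⟨?_, ?_⟩, fun h => ?_⟩
  · unfold mm
    rw [Ne, ZMod.valMinAbs_eq_zero, hres, hu.mul_left_eq_zero, three_pow_eq_zero]
    omega
  · have : NeZero (3 ^ N) := ⟨by positivity⟩
    obtain ⟨k, hk⟩ := ZMod.natCast_zmod_surjective (n := 3 ^ N) (2 * ξ * (2 : ZMod (3 ^ N))⁻¹ ^ l)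
    have h1 : ((mm N t ξ j l - 3 ^ (t + 2 * j - 2) * (k : ℤ) : ℤ) : ZMod (3 ^ N)) = 0 := by
      unfold mm
      push_cast
      rw [hres, hk, sub_self]
    rw [ZMod.intCast_zmod_eq_zero_iff_dvd] at h1
    have h2 : (3 : ℤ) ^ (t + 2 * j - 2) ∣ mm N t ξ j l - 3 ^ (t + 2 * j - 2) * (k : ℤ) := by
      refine Dvd.dvd.trans ?_ h1
      push_cast
      exact pow_dvd_pow 3 h.le
    have h3 := dvd_add h2 (dvd_mul_right ((3 : ℤ) ^ (t + 2 * j - 2)) (k : ℤ))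
    rwa [sub_add_cancel] at h3
  · unfold mm
    rw [hres, (three_pow_eq_zero N _).2 h, zero_mul, ZMod.valMinAbs_zero]

end Pool.Agent.WIR.H77
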